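import Pool.Agent.W606.PS.Stm

/-!
Project PS (helper606): case 1 of the step.
-/

set_option autoImplicit false

open Set Relation

namespace Pool.Agent.W303.PS6.Case1

open Pool.Agent.W606.PS

theorem main (h : S_SEP1) : S_CASE1 := by
  intro V T _ G tv hS k hk Om Z hR f col leg hL t hRain hOm hf
  obtain ⟨s, hs⟩ := hRain
  have hcol : ∀ i, col (tv t (s i)) = i := fun i => hs i
  have hin : ∀ i, tv t (s i) ∈ Om → tv t (s i) ∈ leg (tv t (s i)) := by
    intro i hi
    obtain ⟨w, -, -, -, hw⟩ := hL.step _ hi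
    rw [hw]
    exact mem_insert _ _
  have hZ : ∀ i, tv t (s i) ∉ Om → tv t (s i) ∈ Z i := by
    intro i hi
    have : tv t (s i) ∈ ⋃ i, Z i := by rw [hR.cov]; exact hi
    obtain ⟨j, hj⟩ := mem_iUnion.mp this
    have h1 := hL.colZ j _ hj
    rw [hcol i] at h1
    subst h1; exact hj
  have hdis : ∀ i j, i ≠ j → Disjoint (leg (tv t (s i))) (leg (tv t (s j))) := by
    intro i j hij
    rw [Set.disjoint_left]
    intro v hv hv'
    have h1 := hL.colL _ v hv
    have h2 := hL.colL _ v hv'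
    rw [hcol] at h1 h2
    exact hij (h1.symm.trans h2)
  have hcon : ∀ i, Con G (Z i ∪ leg (tv t (s i))) := by
    intro i
    have := hL.con (tv t (s i))
    rwa [hcol i] at this
  have hrain' : Rain tv (fun i => Z i ∪ leg (tv t (s i))) t := by
    refine ⟨s, fun i => ?_⟩
    by_cases hi : tv t (s i) ∈ Om
    · exact Or.inr (hin i hi)
    · exact Or.inl (hZ i hi)
  have hleg : ∀ i, leg (tv t (s i)) = ∅ ∨
      (Con G (leg (tv t (s i))) ∧ ∃ j, tv t j ∈ leg (tv t (s i))) := by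
    intro i
    by_cases hi : tv t (s i) ∈ Om
    · exact Or.inr ⟨hL.conL _ hi, s i, hin i hi⟩
    · exact Or.inl (hL.out _ hi)
  have hsep := h V T G tv hS Om Z (fun i => leg (tv t (s i))) hR (fun i => hL.sub _) hdis hcon t
    hrain' hOm hleg
  refine ⟨⋃ i, leg (tv t (s i)), f, iUnion_subset (fun i => hL.sub _), ?_, fun v _ => rfl, hL.lip,
    ?_, ?_, ?_⟩
  · obtain ⟨i, hi⟩ := hOm
    have e : s (s.symm i) = i := s.apply_symm_apply i
    refine ⟨tv t (s (s.symm i)), mem_iUnion.mpr ⟨s.symm i, hin _ ?_⟩⟩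
    rw [e]; exact hi
  · intro v hv
    obtain ⟨i, hi⟩ := mem_iUnion.mp hv
    have hle := hL.le _ v hi
    have hO : tv t (s i) ∈ Om := by
      by_contra hO
      rw [hL.out _ hO] at hi
      exact hi
    have := hf (s i) hO
    have hk' : (1 : ℤ) ≤ k := by exact_mod_cast hk
    refine ⟨hle.1, ?_⟩
    linarith [hle.2]
  · intro a
    have h1 : {v | v ∈ (⋃ i, leg (tv t (s i))) ∧ f v = a}.ncard ≤ (univ : Set (Fin 3)).ncard := by
      refine ncard_le_ncard_of_injOn col (fun v _ => mem_univ _) ?_ (toFinite _)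
      rintro v ⟨hv, hva⟩ w ⟨hw, hwa⟩ hvw
      obtain ⟨i, hi⟩ := mem_iUnion.mp hv
      obtain ⟨j, hj⟩ := mem_iUnion.mp hw
      have c1 := hL.colL _ v hi
      have c2 := hL.colL _ w hj
      rw [hcol] at c1 c2
      have hij : i = j := by rw [← c1, ← c2, hvw]
      subst hij
      exact hL.inj _ v hi w hj (hva.trans hwa.symm)
    refine h1.trans ?_
    rw [ncard_univ, Nat.card_eq_fintype_card, Fintype.card_fin]
    norm_num
  · intro Om' hOm'
    obtain ⟨j, hj1, hj2⟩ := hsep Om' hOm'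
    refine ⟨j, fun ht => hj1 ?_, hj2⟩
    obtain ⟨u, hu, v, hv, e⟩ := ht
    exact ⟨u, hu, v, Or.inl hv, e⟩

end Pool.Agent.W303.PS6.Case1
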