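import Pool.Agent.W606.PS.Cyl

/-!
Project PS (helper606): first part of the sphere axioms for the cylinder.
-/

set_option autoImplicit false

open Set Relation

namespace Pool.Agent.W303.PS6.Cyl1

open Pool.Agent.W606.PS

theorem te_l0 (n m : ℕ) (i : ZMod n) (j : Fin m) :
    (Cyl n m).te (Sum.inl (i, j)) 0 = Sum.inr (Sum.inl (i + 1, j.succ)) := rfl
theorem te_l2 (n m : ℕ) (i : ZMod n) (j : Fin m) :
    (Cyl n m).te (Sum.inl (i, j)) 2 = Sum.inl (i, j) := rfl
theorem te_r0 (n m : ℕ) (i : ZMod n) (j : Fin m) :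
    (Cyl n m).te (Sum.inr (i, j)) 0 = Sum.inl (i, j) := rfl
theorem te_r2 (n m : ℕ) (i : ZMod n) (j : Fin m) :
    (Cyl n m).te (Sum.inr (i, j)) 2 = Sum.inr (Sum.inl (i, j.castSucc)) := rfl
theorem te_l1 (n m : ℕ) (i : ZMod n) (j : Fin m) :
    (Cyl n m).te (Sum.inl (i, j)) 1 =
      if h : (j : ℕ) < m - 1 then Sum.inr (Sum.inr (i, ⟨j, h⟩))
      else Sum.inr (Sum.inl (i, j.succ)) := by
  change cSla n m i j.succ = _
  unfold cSla
  simp
theorem te_r1 (n m : ℕ) (i : ZMod n) (j : Fin m) :
    (Cyl n m).te (Sum.inr (i, j)) 1 =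
      if h : (j : ℕ) = 0 then Sum.inr (Sum.inl (i + 1, j.castSucc))
      else Sum.inr (Sum.inr (i, ⟨(j : ℕ) - 1, by have := j.2; omega⟩)) := by
  change cSla n m i j.castSucc = _
  unfold cSla
  by_cases h0 : (j : ℕ) = 0
  · simp [h0]
  · have h1 : (j : ℕ) - 1 < m - 1 := by have := j.2; omega
    simp [h0, h1]

theorem con (n m : ℕ) : Con (Cyl n m).gr univ := by
  have key : ∀ (i : ZMod n) (J : ℕ), ReflTransGen
      (fun a b => (Cyl n m).gr.Adj a b ∧ a ∈ (univ : Set (CX n m)) ∧ b ∈ (univ : Set (CX n m)))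
      (Sum.inr false) (cP n m i J) := by
    intro i J
    induction J with
    | zero => simp [cP, ReflTransGen.refl]
    | succ J ih =>
      by_cases h : cP n m i J = cP n m i (J + 1)
      · rw [← h]; exact ih
      · refine ih.tail ⟨?_, mem_univ _, mem_univ _⟩
        have hJ : J < m + 1 := by
          by_contra hJ
          apply h
          have h1 : ¬ J - 1 < m := by omega
          have h2 : ¬ J < m := by omega
          have h3 : J ≠ 0 := by omega
          simp [cP, h1, h2, h3]
        unfold Cx.gr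
        rw [SimpleGraph.fromRel_adj]
        exact ⟨h, Or.inl ⟨cVer n m i ⟨J, hJ⟩, rfl, rfl⟩⟩
  refine con_of_base (u := Sum.inr false) (mem_univ _) ?_
  rintro (⟨i, j⟩ | b) -
  · have := key i (j + 1)
    simpa [cP] using this
  · cases b
    · exact ReflTransGen.refl
    · have := key 0 (m + 1)
      simpa [cP] using this

theorem main : S_CYL1 := by
  intro n m _ hm
  refine ⟨con n m, ?_⟩
  rintro (⟨i, j⟩ | ⟨i, J⟩ | ⟨i, j⟩)
  · -- horizontal
    refine ncard_eq_two.mpr ⟨(Sum.inl (i, j), 2), (Sum.inr (i, j), 0), by simp, ?_⟩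
    ext ⟨t, k⟩
    rcases t with ⟨i', j'⟩ | ⟨i', j'⟩ <;> fin_cases k
    · simp [te_l0]
    · simp only [mem_ofPred_eq, mem_insert_iff, mem_singleton_iff]
      erw [te_l1]
      split_ifs <;> simp
    · simp [te_l2]
    · simp [te_r0]
    · simp only [mem_ofPred_eq, mem_insert_iff, mem_singleton_iff]
      erw [te_r1]
      split_ifs <;> simp
    · simp [te_r2]
  · -- vertical
    have hJm := J.2
    have esub : ∀ i' : ZMod n, i' + 1 = i ↔ i' = i - 1 := fun i' => eq_sub_iff_add_eq.symm
    rcases Nat.eq_zero_or_pos (J : ℕ) with h0 | h0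
    · refine ncard_eq_two.mpr ⟨(Sum.inr (i, ⟨0, by omega⟩), 2), (Sum.inr (i - 1, ⟨0, by omega⟩), 1),
        by simp, ?_⟩
      ext ⟨t, k⟩
      rcases t with ⟨i', j'⟩ | ⟨i', j'⟩ <;> fin_cases k <;>
        simp only [mem_ofPred_eq, mem_insert_iff, mem_singleton_iff]
      · erw [te_l0]
        simp [Fin.ext_iff, h0]
      · erw [te_l1]
        split_ifs <;> simp [Fin.ext_iff, h0]
      · erw [te_l2]; simp
      · erw [te_r0]; simp
      · erw [te_r1]
        split_ifs with h <;> simp [Fin.ext_iff, h0, h, esub]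
      · erw [te_r2]
        simp [Fin.ext_iff, h0]
    · by_cases hm' : (J : ℕ) = m
      · refine ncard_eq_two.mpr ⟨(Sum.inl (i - 1, ⟨m - 1, by omega⟩), 0),
          (Sum.inl (i, ⟨m - 1, by omega⟩), 1), by simp, ?_⟩
        ext ⟨t, k⟩
        rcases t with ⟨i', j'⟩ | ⟨i', j'⟩ <;> fin_cases k <;>
          simp only [mem_ofPred_eq, mem_insert_iff, mem_singleton_iff]
        · erw [te_l0]
          simp [Fin.ext_iff, hm', esub]
          intro _
          omega
        · erw [te_l1]
          have := j'.2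
          split_ifs with h <;> simp [Fin.ext_iff, hm']
          · omega
          · intro _; omega
        · erw [te_l2]; simp
        · erw [te_r0]; simp
        · erw [te_r1]
          have := j'.2
          split_ifs with h <;> simp [Fin.ext_iff, hm']
          omega
        · erw [te_r2]
          have := j'.2
          simp [Fin.ext_iff, hm']
          omega
      · refine ncard_eq_two.mpr ⟨(Sum.inl (i - 1, ⟨(J : ℕ) - 1, by omega⟩), 0),
          (Sum.inr (i, ⟨J, by omega⟩), 2), by simp, ?_⟩
        ext ⟨t, k⟩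
        rcases t with ⟨i', j'⟩ | ⟨i', j'⟩ <;> fin_cases k <;>
          simp only [mem_ofPred_eq, mem_insert_iff, mem_singleton_iff]
        · erw [te_l0]
          simp [Fin.ext_iff, esub]
          intro _
          omega
        · erw [te_l1]
          have := j'.2
          split_ifs with h <;> simp [Fin.ext_iff]
          intro _; omega
        · erw [te_l2]; simp
        · erw [te_r0]; simp
        · erw [te_r1]
          have := j'.2
          split_ifs with h <;> simp [Fin.ext_iff]
          omega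
        · erw [te_r2]
          simp [Fin.ext_iff]
  · -- diagonal
    have hj := j.2
    refine ncard_eq_two.mpr ⟨(Sum.inl (i, ⟨j, by omega⟩), 1), (Sum.inr (i, ⟨j + 1, by omega⟩), 1),
      by simp, ?_⟩
    ext ⟨t, k⟩
    rcases t with ⟨i', j'⟩ | ⟨i', j'⟩ <;> fin_cases k <;>
      simp only [mem_ofPred_eq, mem_insert_iff, mem_singleton_iff]
    · erw [te_l0]; simp
    · erw [te_l1]
      have := j'.2
      split_ifs with h <;> simp [Fin.ext_iff]
      omega
    · erw [te_l2]; simp
    · erw [te_r0]; simp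
    · erw [te_r1]
      have := j'.2
      split_ifs with h <;> simp [Fin.ext_iff]
      · omega
      · intro _; omega
    · erw [te_r2]; simp

end Pool.Agent.W303.PS6.Cyl1
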